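import Pool.Agent.Helper75.GX.Fold2

/-!
# The global fold, part 3: balanced sets which contain the merged vertex; the theorem
-/

set_option autoImplicit false

namespace Pool.Agent.Helper75.GX

open SimpleGraph Pool.Agent.Helper57.TOK Pool.Agent.Helper57.TD Pool.Agent.Helper82.TK
  Pool.Agent.Helper51.GX Pool.Agent.Helper97.OT

variable {V : Type*}

/-- The field `TRI` of `GCore`. -/
def Tri (G : SimpleGraph V) : Prop :=
  ∀ y c t1 t2 t3, ∀ κ : V → ZMod 2, y ≠ t1 → y ≠ t2 → y ≠ t3 → c ≠ t1 → c ≠ t2 → c ≠ t3 →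
    G.Adj t1 t2 → G.Adj t1 t3 → G.Adj t2 t3 → κ t1 = κ t2 → κ t1 = κ t3 →
    (∀ u v, G.Adj u v → κ u = κ v → s(u, v) = s(y, c) ∨
      (u ∈ ({t1, t2, t3} : Set V) ∧ v ∈ ({t1, t2, t3} : Set V))) → False

section

variable {G : SimpleGraph V} {U : Set V} {y p q r : V}

/-- lift of a colouring, merged vertex inside -/
noncomputable def liftB (κ : V → ZMod 2) (y p q : V) : V → ZMod 2 := by
  classical exact fun v => if v = q then κ p else if v = y then κ p + 1 else κ v

lemma liftB_q (κ : V → ZMod 2) (y p q : V) : liftB κ y p q q = κ p := by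
  unfold liftB; rw [if_pos rfl]

lemma liftB_y (κ : V → ZMod 2) {y p q : V} (hqy : q ≠ y) : liftB κ y p q y = κ p + 1 := by
  unfold liftB; rw [if_neg hqy.symm, if_pos rfl]

lemma liftB_ne (κ : V → ZMod 2) {y p q v : V} (hq : v ≠ q) (hy : v ≠ y) :
    liftB κ y p q v = κ v := by
  unfold liftB; rw [if_neg hq, if_neg hy]

/-- The only possibly bad edge at `Y + q + y` is `y r`. -/
lemma FH.balB (h : FH G U y p q r) {Y : Set V} (hY : Y ⊆ U \ {y, q}) (hp : p ∈ Y)
    {κ : V → ZMod 2} (hκ : BalOn (foldG G y p q) (fun _ => 1) Y κ) {u v : V}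
    (hu : u ∈ insert y (insert q Y)) (huv : G.Adj u v)
    (hne : s(u, v) ≠ s(y, r)) : liftB κ y p q u ≠ liftB κ y p q v := by
  have hkey : ∀ a b, a ∈ Y → b ≠ y → G.Adj a b → liftB κ y p q a ≠ liftB κ y p q b := by
    intro a b ha hby hab
    obtain ⟨hay, haq⟩ := ne_of_sub hY ha
    rw [liftB_ne κ haq hay]
    by_cases hbq : b = q
    · subst hbq
      have hap : a ≠ p := fun hh => h.npq (hh ▸ hab)
      rw [liftB_q]
      exact bal_ne hκ ha (adj_fold_q hab h.py h.pq hay hap)
    · rw [liftB_ne κ hbq hby]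
      exact bal_ne hκ ha (adj_fold hab hay hby haq hbq)
  have hy : ∀ b, G.Adj y b → s(y, b) ≠ s(y, r) → liftB κ y p q y ≠ liftB κ y p q b := by
    intro b hab hne'
    rw [liftB_y κ h.qy]
    rcases h.ady.1 hab with h1 | h1 | h1
    · rw [h1, liftB_ne κ h.pq h.py]; exact z2_add_one_ne _
    · rw [h1, liftB_q]; exact z2_add_one_ne _
    · exact absurd (by rw [h1]) hne'
  rcases hu with rfl | rfl | hu
  · exact hy v huv hne
  · by_cases hvy : v = y
    · subst hvy
      exact (hy _ huv.symm (fun hh => hne (by rw [← hh]; exact Sym2.eq_swap))).symm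
    · have hvp : v ≠ p := fun hh => h.npq (hh ▸ huv.symm)
      rw [liftB_q, liftB_ne κ huv.ne.symm hvy]
      exact bal_ne hκ hp (adj_fold_q huv.symm h.py h.pq hvy hvp).symm
  · by_cases hvy : v = y
    · subst hvy
      exact (hy _ huv.symm (fun hh => hne (by rw [← hh]; exact Sym2.eq_swap))).symm
    · exact hkey u v hu hvy huv

/-- merged vertex inside `Y`, `r` far away: exit gamma -/
lemma FH.sparseB1 [Finite V] (h : FH G U y p q r) {Y : Set V} (hY : Y ⊆ U \ {y, q})
    (hN : (Nb (foldG G y p q) Y).ncard = 3) (hp : p ∈ Y)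
    {κ : V → ZMod 2} (hκ : BalOn (foldG G y p q) (fun _ => 1) Y κ)
    (hd : beta κ (Nb (foldG G y p q) Y) + 1 ≤ fden (foldG G y p q) Y)
    (hr : r ∉ Y) (hrN : r ∉ Nb (foldG G y p q) Y) (hγ : NoGamma G U y p q r) : False := by
  classical
  have hq : q ∉ Y := fun hh => (ne_of_sub hY hh).2 rfl
  have hy : y ∉ Y := fun hh => (ne_of_sub hY hh).1 rfl
  set N := Nb (foldG G y p q) Y with hNd
  have hmem : ∀ v, v ∈ N ↔ v ∈ Nb G (insert q Y) ∧ v ≠ y :=
    fun v => mem_Nb_foldG_of_mem h.pq h.py hp hq hy v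
  have hyN : y ∉ N := fun hh => ((hmem y).1 hh).2 rfl
  have hqN : q ∉ N := fun hh => ((hmem q).1 hh).1.1 (Or.inl rfl)
  have hyq : y ∉ insert q Y := by
    rintro (hh | hh)
    · exact h.qy hh.symm
    · exact hy hh
  have hAU : insert q Y ⊆ U := Set.insert_subset h.qU (hY.trans Set.sdiff_subset)
  have hbal : Bal G (liftB κ y p q) (insert q Y) := by
    intro u v hu huv
    refine h.balB hY hp hκ (Or.inr hu) huv ?_
    intro hh
    rw [Sym2.eq_iff] at hh
    rcases hh with ⟨rfl, rfl⟩ | ⟨rfl, rfl⟩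
    · exact hyq hu
    · rcases hu with hh | hh
      · exact h.qr hh.symm
      · exact hr hh
  have hset : Nb G (insert q Y) = insert y N := by
    ext v
    constructor
    · intro hv
      by_cases hvy : v = y
      · exact Or.inl hvy
      · exact Or.inr ((hmem v).2 ⟨hv, hvy⟩)
    · rintro (rfl | hv)
      · exact ⟨hyq, q, Or.inl rfl, h.yq.symm⟩
      · exact ((hmem v).1 hv).1
  have h4 : (Nb G (insert q Y)).ncard = 4 := by
    rw [hset, Set.ncard_insert_of_notMem hyN (Set.toFinite _), hN]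
  have hP2 := h.base.P2 _ hAU _ hbal h4
  have hb : beta (liftB κ y p q) (Nb G (insert q Y)) ≤ beta κ N + 1 := by
    rw [hset]
    have : beta (liftB κ y p q) N = beta κ N := by
      apply beta_congr
      intro x hx
      exact liftB_ne κ (fun hh => hqN (hh ▸ hx)) (fun hh => hyN (hh ▸ hx))
    rw [← this]
    exact beta_insert_le
  have h5 := rho_foldG_of_mem (G := G) h.pq h.py h.qy h.npq hp hq hy
  have h6 := rho_insert G (y := y) (Y := insert q Y) hyq
  have h7 : G.neighborSet y \ insert q Y = {r} := by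
    rw [h.Ny]
    ext v
    simp only [Set.mem_sdiff, Set.mem_insert_iff, Set.mem_singleton_iff]
    constructor
    · rintro ⟨rfl | rfl | rfl, h8⟩
      · exact absurd (Or.inr hp) h8
      · exact absurd (Or.inl rfl) h8
      · rfl
    · rintro rfl
      refine ⟨Or.inr (Or.inr rfl), ?_⟩
      rintro (h8 | h8)
      · exact h.qr h8.symm
      · exact hr h8
  have h8 : (G.neighborSet y).ncard = 3 := by
    rw [h.Ny]
    exact Set.ncard_eq_three.2 ⟨p, q, r, h.pq, h.pr, h.qr, rfl⟩
  rw [h7, Set.ncard_singleton] at h6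
  rw [h6, h8] at h5
  have h9 : fden G (insert q Y) = fden (foldG G y p q) Y +
      ({w | w ≠ y ∧ G.Adj p w ∧ G.Adj q w}.ncard : ℤ) := by
    unfold fden
    rw [Set.ncard_insert_of_notMem hq (Set.toFinite _)]
    zify at h5
    push_cast
    linarith
  have hC0 : {w | w ≠ y ∧ G.Adj p w ∧ G.Adj q w}.ncard = 0 := by
    have : ({w | w ≠ y ∧ G.Adj p w ∧ G.Adj q w}.ncard : ℤ) ≤ 0 := by linarith
    exact_mod_cast le_antisymm this (Int.natCast_nonneg _)
  rw [Set.ncard_eq_zero (Set.toFinite _)] at hC0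
  refine hγ _ hAU _ hbal h4 (Or.inr hp) (Or.inl rfl) hyq ?_ ?_ ?_
  · rintro (hh | hh)
    · exact h.qr hh.symm
    · exact hr hh
  · intro hh
    exact hrN ((hmem r).2 ⟨hh, h.ry⟩)
  · intro w hwy hh
    exact (Set.eq_empty_iff_forall_notMem.1 hC0 w) ⟨hwy, hh.1.symm, hh.2.symm⟩

/-- merged vertex inside `Y`, `r` in `Y` or in its boundary: small rest -/
lemma FH.sparseB2 [Finite V] (h : FH G U y p q r) {Y : Set V} (hY : Y ⊆ U \ {y, q})
    (h2 : 2 ≤ Y.ncard)
    (hN : (Nb (foldG G y p q) Y).ncard = 3) (hp : p ∈ Y)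
    (hR : ((U \ {y, q}) \ (Y ∪ Nb (foldG G y p q) Y)).Nonempty)
    {κ : V → ZMod 2} (hκ : BalOn (foldG G y p q) (fun _ => 1) Y κ)
    (hr : r ∈ Y ∨ r ∈ Nb (foldG G y p q) Y) (hT : Tri G) : False := by
  classical
  have hq : q ∉ Y := fun hh => (ne_of_sub hY hh).2 rfl
  have hy : y ∉ Y := fun hh => (ne_of_sub hY hh).1 rfl
  set N := Nb (foldG G y p q) Y with hNd
  have hmem : ∀ v, v ∈ N ↔ v ∈ Nb G (insert q Y) ∧ v ≠ y :=
    fun v => mem_Nb_foldG_of_mem h.pq h.py hp hq hy v
  have hyN : y ∉ N := fun hh => ((hmem y).1 hh).2 rfl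
  have hqN : q ∉ N := fun hh => ((hmem q).1 hh).1.1 (Or.inl rfl)
  have hyq : y ∉ insert q Y := by
    rintro (hh | hh)
    · exact h.qy hh.symm
    · exact hy hh
  set Y2 := insert y (insert q Y) with hY2
  have hYY2 : Y ⊆ Y2 := fun x hx => Or.inr (Or.inr hx)
  have hY2U : Y2 ⊆ U := Set.insert_subset h.yU
    (Set.insert_subset h.qU (hY.trans Set.sdiff_subset))
  have hNb : Nb G Y2 = N := by
    ext v
    constructor
    · rintro ⟨hv, u, hu, huv⟩
      have hvy : v ≠ y := fun hh => hv (Or.inl hh)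
      have hvq : v ∉ insert q Y := fun hh => hv (Or.inr hh)
      rcases hu with rfl | hu
      · rcases h.ady.1 huv with h1 | h1 | h1
        · exact absurd (Or.inr (h1 ▸ hp)) hvq
        · exact absurd (Or.inl h1) hvq
        · rcases hr with hr | hr
          · exact absurd (Or.inr (h1 ▸ hr)) hvq
          · rw [h1]; exact hr
      · exact (hmem v).2 ⟨⟨hvq, u, hu, huv⟩, hvy⟩
    · intro hv
      obtain ⟨⟨h1, u, hu, huv⟩, h3⟩ := (hmem v).1 hv
      refine ⟨?_, u, Or.inr hu, huv⟩
      rintro (hh | hh)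
      · exact h3 hh
      · exact h1 hh
  have hY22 : 2 ≤ Y2.ncard := h2.trans (Set.ncard_le_ncard hYY2 (Set.toFinite _))
  have hI := h.base.I4 Y2 hY2U hY22 (by rw [hNb, hN])
  obtain ⟨x, hx1, hx2⟩ := hR
  have hxY2 : x ∉ Y2 := by
    rintro (hh | hh | hh)
    · exact hx1.2 (Or.inl hh)
    · exact hx1.2 (Or.inr hh)
    · exact hx2 (Or.inl hh)
  have hxN : x ∉ N := fun hh => hx2 (Or.inr hh)
  have hxR : x ∈ U \ (Y2 ∪ Nb G Y2) := by
    refine ⟨hx1.1, ?_⟩
    rw [hNb]
    rintro (hh | hh)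
    · exact hxY2 hh
    · exact hxN hh
  have hcov : ∀ z ∈ U, z ∈ Y2 ∨ z ∈ N ∨ z = x := by
    intro z hz
    by_cases h1 : z ∈ Y2
    · exact Or.inl h1
    by_cases h3 : z ∈ N
    · exact Or.inr (Or.inl h3)
    · right; right
      refine (Set.ncard_le_one (Set.toFinite _)).1 hI z ⟨hz, ?_⟩ x hxR
      rw [hNb]
      rintro (hh | hh)
      · exact h1 hh
      · exact h3 hh
  have hnb : ∀ u v, u ∈ Y2 → G.Adj u v → v ∈ Y2 ∨ v ∈ N := by
    intro u v hu huv
    by_cases h1 : v ∈ Y2
    · exact Or.inl h1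
    · right; rw [← hNb]; exact ⟨h1, u, hu, huv⟩
  have hNx : G.neighborSet x = N := by
    apply Set.eq_of_subset_of_ncard_le _ _ (Set.toFinite _)
    · intro w hw
      have hw' : G.Adj x w := hw
      rcases hcov w (h.base.edge_mem w x hw'.symm) with h1 | h1 | h1
      · exact ((hnb w x h1 hw'.symm).elim hxY2 hxN).elim
      · exact h1
      · exact absurd h1 hw'.ne.symm
    · rw [hN]; exact h.base.deg3 x hx1.1
  have hxadj : ∀ a, a ∈ N → G.Adj x a := fun a ha => by
    have : a ∈ G.neighborSet x := by rw [hNx]; exact ha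
    exact this
  -- the bad edges
  have hbad : ∀ i : ZMod 2, ∀ u v, G.Adj u v →
      (Function.update (liftB κ y p q) x i) u = (Function.update (liftB κ y p q) x i) v →
      s(u, v) = s(y, r) ∨ ((u ∈ N ∨ u = x) ∧ (v ∈ N ∨ v = x)) := by
    intro i u v huv heq
    have m : ∀ a b, G.Adj a b → a ∈ Y2 →
      (Function.update (liftB κ y p q) x i) a = (Function.update (liftB κ y p q) x i) b →
      s(a, b) = s(y, r) := by
      intro a b hab ha he
      have hbx : b ≠ x := by
        intro hh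
        rcases hnb a b ha hab with h1 | h1
        · exact hxY2 (hh ▸ h1)
        · exact hxN (hh ▸ h1)
      rw [Function.update_of_ne (show a ≠ x from fun hh => hxY2 (hh ▸ ha)),
        Function.update_of_ne hbx] at he
      by_contra hne
      exact h.balB hY hp hκ ha hab hne he
    by_cases hu : u ∈ Y2
    · exact Or.inl (m u v huv hu heq)
    by_cases hv : v ∈ Y2
    · left; rw [← m v u huv.symm hv heq.symm]; exact Sym2.eq_swap
    · right
      have k1 := hcov u (h.base.edge_mem u v huv)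
      have k2 := hcov v (h.base.edge_mem v u huv.symm)
      exact ⟨k1.resolve_left hu, k2.resolve_left hv⟩
  have hNoff : ∀ i : ZMod 2, ∀ a ∈ N, (Function.update (liftB κ y p q) x i) a = κ a := by
    intro i a ha
    rw [Function.update_of_ne (show a ≠ x from fun hh => hxN (hh ▸ ha)),
      liftB_ne κ (show a ≠ q from fun hh => hqN (hh ▸ ha))
        (show a ≠ y from fun hh => hyN (hh ▸ ha))]
  -- two deleted vertices: the third boundary vertices `a, b` are harmless
  have hind : ∀ a b c : V, N = {a, b, c} → κ a = κ b → ¬ G.Adj a b → False := by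
    intro a b c hNabc hab hnab
    have haN : a ∈ N := by rw [hNabc]; exact Or.inl rfl
    have hbN : b ∈ N := by rw [hNabc]; exact Or.inr (Or.inl rfl)
    refine h.base.ind3 r c (Function.update (liftB κ y p q) x (κ a + 1)) ?_
    intro u v hu hv huv heq
    simp only [Set.mem_insert_iff, Set.mem_singleton_iff] at hu hv
    push Not at hu hv
    rcases hbad _ u v huv heq with h1 | ⟨h1, h3⟩
    · rw [Sym2.eq_iff] at h1
      rcases h1 with ⟨-, h4⟩ | ⟨h4, -⟩
      · exact hv.1 h4
      · exact hu.1 h4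
    · have k : ∀ z, (z ∈ N ∨ z = x) → z ≠ c → z = a ∨ z = b ∨ z = x := by
        intro z hz hzc
        rcases hz with hz | hz
        · rw [hNabc] at hz
          rcases hz with h4 | h4 | h4
          · exact Or.inl h4
          · exact Or.inr (Or.inl h4)
          · exact absurd h4 hzc
        · exact Or.inr (Or.inr hz)
      have kx : ∀ z, z = a ∨ z = b →
          (Function.update (liftB κ y p q) x (κ a + 1)) z = κ a := by
        rintro z (rfl | rfl)
        · exact hNoff _ _ haN
        · rw [hNoff _ _ hbN, hab]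
      have k1 := k u h1 hu.2
      have k3 := k v h3 hv.2
      rcases k1 with k1 | k1 | k1
      · rcases k3 with k3 | k3 | k3
        · exact huv.ne (k1.trans k3.symm)
        · exact hnab (k1 ▸ k3 ▸ huv)
        · rw [kx u (Or.inl k1), k3, Function.update_self] at heq
          exact z2_ne_add_one _ heq
      · rcases k3 with k3 | k3 | k3
        · exact hnab (k1 ▸ k3 ▸ huv.symm)
        · exact huv.ne (k1.trans k3.symm)
        · rw [kx u (Or.inr k1), k3, Function.update_self] at heq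
          exact z2_ne_add_one _ heq
      · rcases k3 with k3 | k3 | k3
        · rw [kx v (Or.inl k3), k1, Function.update_self] at heq
          exact z2_add_one_ne _ heq
        · rw [kx v (Or.inr k3), k1, Function.update_self] at heq
          exact z2_add_one_ne _ heq
        · exact huv.ne (k1.trans k3.symm)
  -- `r` in the boundary
  by_cases hrN : r ∈ N
  · obtain ⟨a, b, hab, hNab⟩ : ∃ a b, a ≠ b ∧ N \ {r} = {a, b} := by
      have : (N \ {r}).ncard = 2 := by
        rw [Set.ncard_sdiff_singleton_of_mem hrN, hN]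
      exact Set.ncard_eq_two.1 this
    have hbN : b ∈ N ∧ b ≠ r := by
      have : b ∈ N \ {r} := by rw [hNab]; exact Or.inr rfl
      exact ⟨this.1, this.2⟩
    refine h.base.ind3 r a (Function.update (liftB κ y p q) x (κ b + 1)) ?_
    intro u v hu hv huv heq
    simp only [Set.mem_insert_iff, Set.mem_singleton_iff] at hu hv
    push Not at hu hv
    rcases hbad _ u v huv heq with h1 | ⟨h1, h3⟩
    · rw [Sym2.eq_iff] at h1
      rcases h1 with ⟨-, h4⟩ | ⟨h4, -⟩
      · exact hv.1 h4
      · exact hu.1 h4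
    · have k : ∀ z, (z ∈ N ∨ z = x) → z ≠ r → z ≠ a → z = b ∨ z = x := by
        intro z hz hzr hza
        rcases hz with hz | hz
        · have : z ∈ N \ {r} := ⟨hz, hzr⟩
          rw [hNab] at this
          rcases this with h4 | h4
          · exact absurd h4 hza
          · exact Or.inl h4
        · exact Or.inr hz
      rcases k u h1 hu.1 hu.2 with k1 | k1
      · rcases k v h3 hv.1 hv.2 with k3 | k3
        · exact huv.ne (k1.trans k3.symm)
        · rw [k1, k3, Function.update_self, hNoff _ _ hbN.1] at heq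
          exact z2_ne_add_one _ heq
      · rcases k v h3 hv.1 hv.2 with k3 | k3
        · rw [k1, k3, Function.update_self, hNoff _ _ hbN.1] at heq
          exact z2_add_one_ne _ heq
        · exact huv.ne (k1.trans k3.symm)
  -- `r` in `Y`
  have hrY : r ∈ Y := hr.resolve_right hrN
  have hrx : r ≠ x := fun hh => hxY2 (hh ▸ hYY2 hrY)
  have hyx : y ≠ x := fun hh => hxY2 (hh ▸ Or.inl rfl)
  have ht : ∀ a, a ∈ N → y ≠ a ∧ r ≠ a :=
    fun a ha => ⟨fun hh => hyN (hh ▸ ha), fun hh => hrN (hh ▸ ha)⟩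
  -- two boundary vertices of the same colour are adjacent
  have hadj : ∀ a b c : V, N = {a, b, c} → κ a = κ b → G.Adj a b := by
    intro a b c h1 h3
    by_contra h4
    exact hind a b c h1 h3 h4
  obtain ⟨a, b, c, hab, hac, hbc, hNabc⟩ := Set.ncard_eq_three.1 hN
  have haN : a ∈ N := by rw [hNabc]; exact Or.inl rfl
  have hbN : b ∈ N := by rw [hNabc]; exact Or.inr (Or.inl rfl)
  have hcN : c ∈ N := by rw [hNabc]; exact Or.inr (Or.inr rfl)
  -- exactly two of one colour
  have htwo : ∀ a b c : V, N = {a, b, c} → κ a = κ b → κ c ≠ κ a → False := by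
    intro a b c hNabc hab hca
    have haN : a ∈ N := by rw [hNabc]; exact Or.inl rfl
    have hbN : b ∈ N := by rw [hNabc]; exact Or.inr (Or.inl rfl)
    have hcN : c ∈ N := by rw [hNabc]; exact Or.inr (Or.inr rfl)
    refine hT y r x a b (Function.update (liftB κ y p q) x (κ a)) hyx (ht a haN).1 (ht b hbN).1
      hrx (ht a haN).2 (ht b hbN).2 (hxadj a haN) (hxadj b hbN) (hadj a b c hNabc hab) ?_ ?_ ?_
    · rw [Function.update_self, hNoff _ _ haN]
    · rw [Function.update_self, hNoff _ _ hbN, hab]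
    · intro u v huv heq
      rcases hbad _ u v huv heq with h1 | ⟨h1, h3⟩
      · exact Or.inl h1
      · right
        have k : ∀ z z', (z ∈ N ∨ z = x) → (z' ∈ N ∨ z' = x) → z ≠ z' →
            (Function.update (liftB κ y p q) x (κ a)) z =
              (Function.update (liftB κ y p q) x (κ a)) z' → z ∈ ({x, a, b} : Set V) := by
          intro z z' hz hz' hzz he
          by_contra hcon
          have hzx : z ≠ x := fun hh => hcon (Or.inl hh)
          have hzN : z ∈ N := hz.resolve_right hzx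
          have hzc : z = c := by
            rw [hNabc] at hzN
            rcases hzN with h4 | h4 | h4
            · exact absurd (Or.inr (Or.inl h4)) hcon
            · exact absurd (Or.inr (Or.inr h4)) hcon
            · exact h4
          rw [hNoff _ _ hzN, hzc] at he
          rcases hz' with h4 | h4
          · have h5 := h4
            rw [hNoff _ _ h4] at he
            rw [hNabc] at h5
            rcases h5 with h5 | h5 | h5
            · exact hca (he.trans (by rw [h5]))
            · exact hca (he.trans (by rw [h5, hab]))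
            · exact hzz (hzc.trans h5.symm)
          · rw [h4, Function.update_self] at he
            exact hca he
        exact ⟨k u v h1 h3 huv.ne heq, k v u h3 h1 huv.ne.symm heq.symm⟩
  have hperm1 : N = {a, c, b} := by
    rw [hNabc]; ext z; simp only [Set.mem_insert_iff, Set.mem_singleton_iff]; tauto
  have hperm2 : N = {b, c, a} := by
    rw [hNabc]; ext z; simp only [Set.mem_insert_iff, Set.mem_singleton_iff]; tauto
  by_cases e1 : κ a = κ b
  · by_cases e2 : κ c = κ a
    · -- all three of one colour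
      refine hT y r a b c (Function.update (liftB κ y p q) x (κ a + 1)) (ht a haN).1 (ht b hbN).1
        (ht c hcN).1 (ht a haN).2 (ht b hbN).2 (ht c hcN).2 (hadj a b c hNabc e1)
        (hadj a c b hperm1 e2.symm) (hadj b c a hperm2 (e1.symm.trans e2.symm)) ?_ ?_ ?_
      · rw [hNoff _ _ haN, hNoff _ _ hbN, e1]
      · rw [hNoff _ _ haN, hNoff _ _ hcN, e2]
      · intro u v huv heq
        rcases hbad _ u v huv heq with h1 | ⟨h1, h3⟩
        · exact Or.inl h1
        · right
          have hcol : ∀ z ∈ N, (Function.update (liftB κ y p q) x (κ a + 1)) z = κ a := by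
            intro z hz
            rw [hNoff _ _ hz]
            rw [hNabc] at hz
            rcases hz with h4 | h4 | h4
            · rw [h4]
            · rw [h4, e1]
            · rw [h4, e2]
          have k : ∀ z z', (z ∈ N ∨ z = x) → (z' ∈ N ∨ z' = x) → z ≠ z' →
              (Function.update (liftB κ y p q) x (κ a + 1)) z =
                (Function.update (liftB κ y p q) x (κ a + 1)) z' → z ∈ N := by
            intro z z' hz hz' hzz he
            rcases hz with hz | hz
            · exact hz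
            · exfalso
              rcases hz' with hz' | hz'
              · rw [hz, Function.update_self, hcol z' hz'] at he
                exact z2_add_one_ne _ he
              · exact hzz (hz.trans hz'.symm)
          rw [← hNabc]
          exact ⟨k u v h1 h3 huv.ne heq, k v u h3 h1 huv.ne.symm heq.symm⟩
    · exact htwo a b c hNabc e1 e2
  · by_cases e2 : κ a = κ c
    · exact htwo a c b hperm1 e2 (fun hh => e1 hh.symm)
    · have e3 : κ b = κ c := eq_of_ne_of_ne (fun hh => e1 hh.symm) (fun hh => e2 hh.symm)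
      exact htwo b c a hperm2 e3 e1

/-- THE FOLD STAYS IN THE CLASS, apart from the exits. -/
theorem FH.ex3 [Finite V] (h : FH G U y p q r)
    (hC : ({w | w ≠ y ∧ G.Adj p w ∧ G.Adj q w}).ncard ≤ 1)
    (hα : NoAlpha G U y p q r) (hγ : NoGamma G U y p q r)
    (hO : ∀ W κ b c, ¬ O3 G U κ W p q r b c y) (hT : Tri G) :
    Ex3 (foldG G y p q) (fun _ => 1) (U \ {y, q}) where
  edge_mem := fun _ _ huv => h.edge huv
  deg2 := h.deg2
  conn := h.conn
  dens := by rw [odG_one]; exact h.dens hC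
  index2 := h.idx
  sparse := by
    intro Y hY h2 hN hR κ hκ
    rw [odG_one]
    by_contra hlt
    push Not at hlt
    have hd : beta κ (Nb (foldG G y p q) Y) + 1 ≤ fden (foldG G y p q) Y := by omega
    by_cases hp : p ∈ Y
    · by_cases hr : r ∈ Y ∨ r ∈ Nb (foldG G y p q) Y
      · exact h.sparseB2 hY h2 hN hp hR hκ hr hT
      · push Not at hr
        exact h.sparseB1 hY hN hp hκ hd hr.1 hr.2 hγ
    · by_cases hpq : p ∈ Nb G Y ∧ q ∈ Nb G Y
      · by_cases hr : r ∈ Y
        · obtain ⟨b, c, hO3⟩ := h.sparseA3 hY hN hp hR hκ hd hpq.1 hpq.2 hr hα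
          exact hO _ _ _ _ hO3
        · exact h.sparseA2 hY hN hp hκ hd hpq.1 hpq.2 hr hα
      · exact h.sparseA1 hY h2 hN hp hκ hd hpq

end

/-- FIELD `FOLD` of `GCore` (the exit `O3` does not occur). -/
theorem fold_field [Finite V] {G : SimpleGraph V} {U : Set V} (hB : Base G U) (hT : Tri G)
    (hO : ∀ W κ p q r b c y, ¬ O3 G U κ W p q r b c y)
    (IH : ∀ (G' : SimpleGraph V) (U' : Set V), Ex3 G' (fun _ => 1) U' → U'.ncard < U.ncard →
      HasTOK4s G' (fun _ => 1)) :
    ∀ y p q c, y ∈ U → p ≠ q → p ≠ c → q ≠ c → ¬ G.Adj p q →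
    G.neighborSet y = {p, q, c} →
    (∃ z1 z2, z1 ≠ z2 ∧ z1 ≠ y ∧ z2 ≠ y ∧ G.Adj p z1 ∧ G.Adj q z1 ∧ G.Adj p z2 ∧ G.Adj q z2) ∨
    (∃ A ⊆ U, ∃ κ : V → ZMod 2, Bal G κ A ∧ (Nb G A).ncard = 4 ∧ p ∈ Nb G A ∧ q ∈ Nb G A ∧
      κ p = κ q ∧
      y ∉ A ∧ c ∉ A ∧ (c ∈ Nb G A → κ c ≠ κ p) ∧ ∀ w ∈ A, ¬ (G.Adj w p ∧ G.Adj w q)) ∨
    (∃ A ⊆ U, ∃ κ : V → ZMod 2, Bal G κ A ∧ (Nb G A).ncard = 4 ∧ p ∈ A ∧ q ∈ A ∧ y ∉ A ∧ c ∉ A ∧
      c ∉ Nb G A ∧ ∀ w, w ≠ y → ¬ (G.Adj w p ∧ G.Adj w q)) ∨
    (∃ W κ, O3W G U κ W y p q c) := by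
  classical
  intro y p q c hy hpq hpc hqc hnpq hNy
  by_contra hcon
  push Not at hcon
  obtain ⟨h1, h2, h3, -⟩ := hcon
  have hFH : FH G U y p q c := ⟨hB, hy, hNy, hpq, hpc, hqc, hnpq⟩
  have hC : ({w | w ≠ y ∧ G.Adj p w ∧ G.Adj q w}).ncard ≤ 1 := by
    rw [Set.ncard_le_one (Set.toFinite _)]
    intro z1 hz1 z2 hz2
    by_contra hne
    exact h1 z1 z2 hne hz1.1 hz2.1 hz1.2.1 hz1.2.2 hz2.2.1 hz2.2.2
  have hα : NoAlpha G U y p q c := by
    intro A hA κ hb h4 hpA hqA hκ hyA hcA hcκ hcom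
    obtain ⟨w, hw, hw1, hw2⟩ := h2 A hA κ hb h4 hpA hqA hκ hyA hcA hcκ
    exact hcom w hw ⟨hw1, hw2⟩
  have hγ : NoGamma G U y p q c := by
    intro A hA κ hb h4 hpA hqA hyA hcA hcN hcom
    obtain ⟨w, hw, hw1, hw2⟩ := h3 A hA κ hb h4 hpA hqA hyA hcA hcN
    exact hcom w hw ⟨hw1, hw2⟩
  have hex := hFH.ex3 hC hα hγ (fun W κ b c' => hO W κ p q c b c' y) hT
  have hlt : (U \ {y, q}).ncard < U.ncard := by
    have := hFH.ncardU
    omega
  have htok := IH _ _ hex hlt
  exact hB.noT (HasTOK4.of_foldG hpq hFH.yp hFH.yq ((hasTOK4_iff _).2 htok))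

end Pool.Agent.Helper75.GX
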