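import Pool.Agent.Helper75.GX.Fold1

/-!
# The global fold, part 2: balanced sets which do not contain the merged vertex
-/

set_option autoImplicit false

namespace Pool.Agent.Helper75.GX

open SimpleGraph Pool.Agent.Helper57.TOK Pool.Agent.Helper57.TD Pool.Agent.Helper82.TK
  Pool.Agent.Helper51.GX Pool.Agent.Helper97.OT

variable {V : Type*}

lemma z2_add_one_ne (a : ZMod 2) : a + 1 ≠ a := by revert a; decide

lemma z2_ne_add_one (a : ZMod 2) : a ≠ a + 1 := by revert a; decide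

lemma z2_eq_add_one {a b : ZMod 2} (h : a ≠ b) : a = b + 1 := by revert a b; decide

lemma bal_ne {G : SimpleGraph V} {κ : V → ZMod 2} {Y : Set V}
    (h : BalOn G (fun _ => 1) Y κ) {u v : V} (hu : u ∈ Y) (huv : G.Adj u v) : κ u ≠ κ v :=
  add_eq_one_iff.1 (h u v hu huv).symm

/-- Replacing one element by another one of the same colour. -/
lemma beta_swap [Finite V] {κ : V → ZMod 2} {N : Set V} {p q : V} (hp : p ∈ N) (hq : q ∉ N)
    (hκ : κ q = κ p) : beta κ (insert q (N \ {p})) = beta κ N := by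
  have hc : (insert q (N \ {p})).ncard = N.ncard := by
    rw [Set.ncard_insert_of_notMem (fun hh => hq hh.1) (Set.toFinite _),
      Set.ncard_sdiff_singleton_of_mem hp]
    have : 0 < N.ncard := (Set.ncard_pos (Set.toFinite _)).2 ⟨p, hp⟩
    omega
  have hm : Mono κ (insert q (N \ {p})) ↔ Mono κ N := by
    constructor
    · intro hm
      have key : ∀ x ∈ N, κ x = κ q := by
        intro x hx
        by_cases hxp : x = p
        · rw [hxp, hκ]
        · exact hm x (Or.inr ⟨hx, hxp⟩) q (Or.inl rfl)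
      exact fun x hx x' hx' => (key x hx).trans (key x' hx').symm
    · intro hm
      have key : ∀ x ∈ insert q (N \ {p}), κ x = κ p := by
        rintro x (rfl | hx)
        · exact hκ
        · exact hm x hx.1 p hp
      exact fun x hx x' hx' => (key x hx).trans (key x' hx').symm
  unfold beta
  rw [hc]
  by_cases h1 : Mono κ N
  · rw [if_pos h1, if_pos (hm.2 h1)]
  · rw [if_neg h1, if_neg (fun h2 => h1 (hm.1 h2))]

/-- No exit of type gamma. -/
def NoGamma (G : SimpleGraph V) (U : Set V) (y p q r : V) : Prop :=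
  ∀ A ⊆ U, ∀ κ : V → ZMod 2, Bal G κ A → (Nb G A).ncard = 4 → p ∈ A → q ∈ A → y ∉ A → r ∉ A →
    r ∉ Nb G A → (∀ w, w ≠ y → ¬ (G.Adj w p ∧ G.Adj w q)) → False

section

variable {G : SimpleGraph V} {U : Set V} {y p q r : V}

/-- lift of a colouring, merged vertex outside -/
noncomputable def liftA (κ : V → ZMod 2) (y p q r : V) : V → ZMod 2 := by
  classical exact fun v => if v = q then κ p else if v = y then κ r + 1 else κ v

lemma liftA_q (κ : V → ZMod 2) (y p q r : V) : liftA κ y p q r q = κ p := by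
  unfold liftA; rw [if_pos rfl]

lemma liftA_y (κ : V → ZMod 2) {y p q r : V} (hqy : q ≠ y) : liftA κ y p q r y = κ r + 1 := by
  unfold liftA; rw [if_neg hqy.symm, if_pos rfl]

lemma liftA_ne (κ : V → ZMod 2) {y p q r v : V} (hq : v ≠ q) (hy : v ≠ y) :
    liftA κ y p q r v = κ v := by
  unfold liftA; rw [if_neg hq, if_neg hy]

lemma FH.balA (h : FH G U y p q r) {Y : Set V} (hY : Y ⊆ U \ {y, q}) (hp : p ∉ Y)
    {κ : V → ZMod 2} (hκ : BalOn (foldG G y p q) (fun _ => 1) Y κ) :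
    Bal G (liftA κ y p q r) Y := by
  intro u v hu huv
  obtain ⟨huy, huq⟩ := ne_of_sub hY hu
  have hup : u ≠ p := fun hh => hp (hh ▸ hu)
  rw [liftA_ne κ huq huy]
  by_cases hvq : v = q
  · subst hvq
    rw [liftA_q]
    exact bal_ne hκ hu (adj_fold_q huv h.py h.pq huy hup)
  by_cases hvy : v = y
  · subst hvy
    rw [liftA_y κ h.qy]
    rcases h.ady.1 huv.symm with h1 | h1 | h1
    · exact absurd h1 hup
    · exact absurd h1 huq
    · rw [h1]; exact z2_ne_add_one _
  · rw [liftA_ne κ hvq hvy]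
    exact bal_ne hκ hu (adj_fold huv huy hvy huq hvq)

lemma FH.Nb_y (h : FH G U y p q r) {Y : Set V} (hY : Y ⊆ U \ {y, q}) (hp : p ∉ Y) :
    y ∈ Nb G Y ↔ r ∈ Y := by
  constructor
  · rintro ⟨-, u, hu, huy⟩
    rcases h.ady.1 huy.symm with h1 | h1 | h1
    · exact absurd (h1 ▸ hu) hp
    · exact absurd h1 (ne_of_sub hY hu).2
    · exact h1 ▸ hu
  · intro hr
    exact ⟨fun hh => (ne_of_sub hY hh).1 rfl, r, hr, h.yr.symm⟩

/-- relation of the densities -/
lemma FH.fdenA [Finite V] (h : FH G U y p q r) {Y : Set V} (hY : Y ⊆ U \ {y, q}) (hp : p ∉ Y) :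
    (r ∉ Y → fden (foldG G y p q) Y + ({w | w ∈ Y ∧ G.Adj w p ∧ G.Adj w q}.ncard : ℤ) =
      fden G Y) ∧
    (r ∈ Y → fden (foldG G y p q) Y + ({w | w ∈ Y ∧ G.Adj w p ∧ G.Adj w q}.ncard : ℤ) + 1 =
      fden G Y) := by
  have hq : q ∉ Y := fun hh => (ne_of_sub hY hh).2 rfl
  have hy : y ∉ Y := fun hh => (ne_of_sub hY hh).1 rfl
  have h1 := rho_foldG_of_notMem (G := G) h.pq h.py h.qy hp hq hy
  have e1 : {w | w ∈ Y ∧ G.Adj p w ∧ G.Adj q w} = {w | w ∈ Y ∧ G.Adj w p ∧ G.Adj w q} := by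
    ext w
    simp only [Set.mem_ofPred_eq, G.adj_comm]
  rw [e1] at h1
  constructor
  · intro hr
    have e2 : {w | w ∈ Y ∧ G.Adj y w} = ∅ := by
      rw [Set.eq_empty_iff_forall_notMem]
      rintro w ⟨hw, hw'⟩
      rcases h.ady.1 hw' with h2 | h2 | h2
      · exact hp (h2 ▸ hw)
      · exact hq (h2 ▸ hw)
      · exact hr (h2 ▸ hw)
    rw [e2, Set.ncard_empty] at h1
    unfold fden
    zify at h1
    linarith
  · intro hr
    have e2 : {w | w ∈ Y ∧ G.Adj y w} = {r} := by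
      ext w
      simp only [Set.mem_ofPred_eq, Set.mem_singleton_iff]
      constructor
      · rintro ⟨hw, hw'⟩
        rcases h.ady.1 hw' with h2 | h2 | h2
        · exact absurd (h2 ▸ hw) hp
        · exact absurd (h2 ▸ hw) hq
        · exact h2
      · rintro rfl
        exact ⟨hr, h.yr⟩
    rw [e2, Set.ncard_singleton] at h1
    unfold fden
    zify at h1
    linarith

/-- merged vertex outside `Y`, not both `p` and `q` in the boundary -/
lemma FH.sparseA1 [Finite V] (h : FH G U y p q r) {Y : Set V} (hY : Y ⊆ U \ {y, q})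
    (h2 : 2 ≤ Y.ncard) (hN : (Nb (foldG G y p q) Y).ncard = 3) (hp : p ∉ Y)
    {κ : V → ZMod 2} (hκ : BalOn (foldG G y p q) (fun _ => 1) Y κ)
    (hd : beta κ (Nb (foldG G y p q) Y) + 1 ≤ fden (foldG G y p q) Y)
    (hpq : ¬ (p ∈ Nb G Y ∧ q ∈ Nb G Y)) : False := by
  classical
  have hq : q ∉ Y := fun hh => (ne_of_sub hY hh).2 rfl
  have hy : y ∉ Y := fun hh => (ne_of_sub hY hh).1 rfl
  set N := Nb (foldG G y p q) Y with hNd
  have hbal := h.balA hY hp hκ
  have hmem : ∀ v, v ∈ N ↔ (v ∈ Nb G Y ∧ v ≠ q ∧ v ≠ y) ∨ (v = p ∧ q ∈ Nb G Y) :=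
    fun v => mem_Nb_foldG_of_notMem h.pq h.py hp hq hy v
  have hqN : q ∉ N := by
    intro hh
    rcases (hmem q).1 hh with h1 | h1
    · exact h1.2.1 rfl
    · exact h.pq h1.1.symm
  have hyN : y ∉ N := by
    intro hh
    rcases (hmem y).1 hh with h1 | h1
    · exact h1.2.2 rfl
    · exact h.py h1.1.symm
  have hYU : Y ⊆ U := hY.trans Set.sdiff_subset
  -- the set N'' = Nb G Y minus y
  obtain ⟨N2, hN2, hc2, hb2⟩ : ∃ N2 : Set V, Nb G Y ⊆ insert y N2 ∧ N2.ncard = 3 ∧
      beta (liftA κ y p q r) N2 = beta κ N := by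
    by_cases hqG : q ∈ Nb G Y
    · have hpG : p ∉ Nb G Y := fun hh => hpq ⟨hh, hqG⟩
      have hpN : p ∈ N := (hmem p).2 (Or.inr ⟨rfl, hqG⟩)
      refine ⟨insert q (N \ {p}), ?_, ?_, ?_⟩
      · intro v hv
        by_cases hvy : v = y
        · exact Or.inl hvy
        by_cases hvq : v = q
        · exact Or.inr (Or.inl hvq)
        · exact Or.inr (Or.inr ⟨(hmem v).2 (Or.inl ⟨hv, hvq, hvy⟩), fun hh => hpG (hh ▸ hv)⟩)
      · rw [Set.ncard_insert_of_notMem (fun hh => hqN hh.1) (Set.toFinite _),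
          Set.ncard_sdiff_singleton_of_mem hpN, hN]
      · rw [beta_swap hpN hqN (by rw [liftA_q, liftA_ne κ h.pq h.py])]
        apply beta_congr
        intro x hx
        exact liftA_ne κ (fun hh => hqN (hh ▸ hx)) (fun hh => hyN (hh ▸ hx))
    · refine ⟨N, ?_, hN, ?_⟩
      · intro v hv
        by_cases hvy : v = y
        · exact Or.inl hvy
        · exact Or.inr ((hmem v).2 (Or.inl ⟨hv, fun hh => hqG (hh ▸ hv), hvy⟩))
      · apply beta_congr
        intro x hx
        exact liftA_ne κ (fun hh => hqN (hh ▸ hx)) (fun hh => hyN (hh ▸ hx))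
  have hP1 := h.base.P1 Y hYU h2 _ hbal
  by_cases hr : r ∈ Y
  · have hle := Set.ncard_le_ncard hN2 (Set.toFinite _)
    have hle2 := Set.ncard_insert_le y N2
    have h4 : (Nb G Y).ncard = 4 := by omega
    have hP2 := h.base.P2 Y hYU _ hbal h4
    have h5 := (h.fdenA hY hp).2 hr
    have h6 : beta (liftA κ y p q r) (Nb G Y) ≤ beta κ N + 1 := by
      rw [← hb2]
      exact (beta_mono hN2).trans beta_insert_le
    have h7 : (0 : ℤ) ≤ ({w | w ∈ Y ∧ G.Adj w p ∧ G.Adj w q}.ncard : ℤ) :=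
      Int.natCast_nonneg _
    linarith
  · have hsub : Nb G Y ⊆ N2 := by
      intro v hv
      rcases hN2 hv with h1 | h1
      · exact absurd ((h.Nb_y hY hp).1 (h1 ▸ hv)) hr
      · exact h1
    have := Set.ncard_le_ncard hsub (Set.toFinite _)
    omega

/-- merged vertex outside `Y`, both `p` and `q` in the boundary, `r` outside: exit alpha -/
lemma FH.sparseA2 [Finite V] (h : FH G U y p q r) {Y : Set V} (hY : Y ⊆ U \ {y, q})
    (hN : (Nb (foldG G y p q) Y).ncard = 3) (hp : p ∉ Y)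
    {κ : V → ZMod 2} (hκ : BalOn (foldG G y p q) (fun _ => 1) Y κ)
    (hd : beta κ (Nb (foldG G y p q) Y) + 1 ≤ fden (foldG G y p q) Y)
    (hpN : p ∈ Nb G Y) (hqN : q ∈ Nb G Y) (hr : r ∉ Y) (hα : NoAlpha G U y p q r) : False := by
  classical
  have hq : q ∉ Y := fun hh => (ne_of_sub hY hh).2 rfl
  have hy : y ∉ Y := fun hh => (ne_of_sub hY hh).1 rfl
  set N := Nb (foldG G y p q) Y with hNd
  have hbal := h.balA hY hp hκ
  have hmem : ∀ v, v ∈ N ↔ (v ∈ Nb G Y ∧ v ≠ q ∧ v ≠ y) ∨ (v = p ∧ q ∈ Nb G Y) :=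
    fun v => mem_Nb_foldG_of_notMem h.pq h.py hp hq hy v
  have hqN' : q ∉ N := by
    intro hh
    rcases (hmem q).1 hh with h1 | h1
    · exact h1.2.1 rfl
    · exact h.pq h1.1.symm
  have hyN : y ∉ N := by
    intro hh
    rcases (hmem y).1 hh with h1 | h1
    · exact h1.2.2 rfl
    · exact h.py h1.1.symm
  have hyG : y ∉ Nb G Y := fun hh => hr ((h.Nb_y hY hp).1 hh)
  have hYU : Y ⊆ U := hY.trans Set.sdiff_subset
  have hset : Nb G Y = insert q N := by
    ext v
    constructor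
    · intro hv
      by_cases hvq : v = q
      · exact Or.inl hvq
      · exact Or.inr ((hmem v).2 (Or.inl ⟨hv, hvq, fun hh => hyG (hh ▸ hv)⟩))
    · rintro (rfl | hv)
      · exact hqN
      · rcases (hmem v).1 hv with h1 | ⟨rfl, -⟩
        · exact h1.1
        · exact hpN
  have h4 : (Nb G Y).ncard = 4 := by
    rw [hset, Set.ncard_insert_of_notMem hqN' (Set.toFinite _), hN]
  have hb : beta (liftA κ y p q r) N = beta κ N := by
    apply beta_congr
    intro x hx
    exact liftA_ne κ (fun hh => hqN' (hh ▸ hx)) (fun hh => hyN (hh ▸ hx))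
  have hb4 : beta (liftA κ y p q r) (Nb G Y) ≤ beta κ N + 1 := by
    rw [hset, ← hb]; exact beta_insert_le
  have hP2 := h.base.P2 Y hYU _ hbal h4
  have h5 := (h.fdenA hY hp).1 hr
  have hC0 : {w | w ∈ Y ∧ G.Adj w p ∧ G.Adj w q}.ncard = 0 := by
    have : ({w | w ∈ Y ∧ G.Adj w p ∧ G.Adj w q}.ncard : ℤ) ≤ 0 := by linarith
    exact_mod_cast le_antisymm this (Int.natCast_nonneg _)
  rw [Set.ncard_eq_zero (Set.toFinite _)] at hC0
  refine hα Y hYU _ hbal h4 hpN hqN ?_ hy hr ?_ ?_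
  · rw [liftA_q, liftA_ne κ h.pq h.py]
  · -- the colour of r
    intro hrN hκr
    rw [liftA_ne κ h.qr.symm h.ry, liftA_ne κ h.pq h.py] at hκr
    -- the set Y + y
    have hYy : insert y Y ⊆ U := Set.insert_subset h.yU hYU
    have hbal' : Bal G (liftA κ y p q r) (insert y Y) := by
      rintro u v (rfl | hu) huv
      · rw [liftA_y κ h.qy]
        rcases h.ady.1 huv with h1 | h1 | h1
        · rw [h1, liftA_ne κ h.pq h.py, hκr]; exact z2_add_one_ne _
        · rw [h1, liftA_q, hκr]; exact z2_add_one_ne _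
        · rw [h1, liftA_ne κ h.qr.symm h.ry]; exact z2_add_one_ne _
      · exact hbal u v hu huv
    have hNb : Nb G (insert y Y) = Nb G Y := by
      ext v
      constructor
      · rintro ⟨hv, u, hu, huv⟩
        have hvY : v ∉ Y := fun hh => hv (Or.inr hh)
        rcases hu with rfl | hu
        · rcases h.ady.1 huv with h1 | h1 | h1
          · rw [h1]; exact hpN
          · rw [h1]; exact hqN
          · rw [h1]; exact hrN
        · exact ⟨hvY, u, hu, huv⟩
      · rintro ⟨hv, u, hu, huv⟩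
        refine ⟨?_, u, Or.inr hu, huv⟩
        rintro (hh | hh)
        · exact hyG (hh ▸ ⟨hv, u, hu, huv⟩)
        · exact hv hh
    have hfd : fden G (insert y Y) = fden G Y + 1 := by
      rw [fden_insert G hy]
      have : G.neighborSet y \ Y = {p, q, r} := by
        rw [h.Ny]
        ext v
        simp only [Set.mem_sdiff, Set.mem_insert_iff, Set.mem_singleton_iff]
        constructor
        · exact fun hh => hh.1
        · rintro (rfl | rfl | rfl)
          · exact ⟨Or.inl rfl, hp⟩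
          · exact ⟨Or.inr (Or.inl rfl), hq⟩
          · exact ⟨Or.inr (Or.inr rfl), hr⟩
      rw [this, Set.ncard_eq_three.2 ⟨p, q, r, h.pq, h.pr, h.qr, rfl⟩]
      push_cast
      ring
    have hP2' := h.base.P2 (insert y Y) hYy _ hbal' (by rw [hNb]; exact h4)
    rw [hNb, hfd] at hP2'
    have h7 : (0 : ℤ) ≤ ({w | w ∈ Y ∧ G.Adj w p ∧ G.Adj w q}.ncard : ℤ) :=
      Int.natCast_nonneg _
    linarith
  · intro w hw hh
    exact (Set.eq_empty_iff_forall_notMem.1 hC0 w) ⟨hw, hh⟩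

/-- merged vertex outside `Y`, both `p` and `q` in the boundary, `r` inside: the obstacle O3 -/
lemma FH.sparseA3 [Finite V] (h : FH G U y p q r) {Y : Set V} (hY : Y ⊆ U \ {y, q})
    (hN : (Nb (foldG G y p q) Y).ncard = 3) (hp : p ∉ Y)
    (hR : ((U \ {y, q}) \ (Y ∪ Nb (foldG G y p q) Y)).Nonempty)
    {κ : V → ZMod 2} (hκ : BalOn (foldG G y p q) (fun _ => 1) Y κ)
    (hd : beta κ (Nb (foldG G y p q) Y) + 1 ≤ fden (foldG G y p q) Y)
    (hpN : p ∈ Nb G Y) (hqN : q ∈ Nb G Y) (hr : r ∈ Y) (hα : NoAlpha G U y p q r) :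
    ∃ b c, O3 G U (liftA κ y p q r) Y p q r b c y := by
  classical
  have hq : q ∉ Y := fun hh => (ne_of_sub hY hh).2 rfl
  have hy : y ∉ Y := fun hh => (ne_of_sub hY hh).1 rfl
  set N := Nb (foldG G y p q) Y with hNd
  have hbal := h.balA hY hp hκ
  have hmem : ∀ v, v ∈ N ↔ (v ∈ Nb G Y ∧ v ≠ q ∧ v ≠ y) ∨ (v = p ∧ q ∈ Nb G Y) :=
    fun v => mem_Nb_foldG_of_notMem h.pq h.py hp hq hy v
  have hqN' : q ∉ N := by
    intro hh
    rcases (hmem q).1 hh with h1 | h1
    · exact h1.2.1 rfl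
    · exact h.pq h1.1.symm
  have hyN : y ∉ N := by
    intro hh
    rcases (hmem y).1 hh with h1 | h1
    · exact h1.2.2 rfl
    · exact h.py h1.1.symm
  have hyG : y ∈ Nb G Y := (h.Nb_y hY hp).2 hr
  have hpN' : p ∈ N := (hmem p).2 (Or.inr ⟨rfl, hqN⟩)
  obtain ⟨b, c, hbc, hNbc⟩ : ∃ b c, b ≠ c ∧ N \ {p} = {b, c} := by
    have : (N \ {p}).ncard = 2 := by
      rw [Set.ncard_sdiff_singleton_of_mem hpN', hN]
    obtain ⟨b, c, h1, h2⟩ := Set.ncard_eq_two.1 this
    exact ⟨b, c, h1, h2⟩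
  have hb : b ∈ N ∧ b ≠ p := by
    have : b ∈ N \ {p} := by rw [hNbc]; exact Or.inl rfl
    exact ⟨this.1, this.2⟩
  have hc : c ∈ N ∧ c ≠ p := by
    have : c ∈ N \ {p} := by rw [hNbc]; exact Or.inr rfl
    exact ⟨this.1, this.2⟩
  have hNset : N = {p, b, c} := by
    rw [← hNbc, Set.insert_sdiff_self_of_mem hpN']
  have hset : Nb G Y = {p, q, b, c, y} := by
    ext v
    simp only [Set.mem_insert_iff, Set.mem_singleton_iff]
    constructor
    · intro hv
      by_cases hvq : v = q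
      · exact Or.inr (Or.inl hvq)
      by_cases hvy : v = y
      · exact Or.inr (Or.inr (Or.inr (Or.inr hvy)))
      have h1 : v ∈ N := (hmem v).2 (Or.inl ⟨hv, hvq, hvy⟩)
      rw [hNset] at h1
      rcases h1 with h1 | h1 | h1
      · exact Or.inl h1
      · exact Or.inr (Or.inr (Or.inl h1))
      · exact Or.inr (Or.inr (Or.inr (Or.inl h1)))
    · have key : ∀ w, w ∈ N → w ≠ p → w ∈ Nb G Y := by
        intro w hw hwp
        rcases (hmem w).1 hw with h1 | h1
        · exact h1.1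
        · exact absurd h1.1 hwp
      rintro (rfl | rfl | rfl | rfl | rfl)
      · exact hpN
      · exact hqN
      · exact key _ hb.1 hb.2
      · exact key _ hc.1 hc.2
      · exact hyG
  refine ⟨b, c, ⟨h.base, h.yU, h.Ny, h.pq, h.npq, hα, hY.trans Set.sdiff_subset, hbal, hr, hset,
    hb.2.symm, hc.2.symm, fun hh => hqN' (hh ▸ hb.1), fun hh => hqN' (hh ▸ hc.1), hbc,
    fun hh => hyN (hh ▸ hb.1), fun hh => hyN (hh ▸ hc.1), ?_, ?_, ?_⟩⟩
  · rw [liftA_q, liftA_ne κ h.pq h.py]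
  · have h5 := (h.fdenA hY hp).2 hr
    have h6 : beta (liftA κ y p q r) {p, b, c} = beta κ N := by
      rw [← hNset]
      apply beta_congr
      intro x hx
      exact liftA_ne κ (fun hh => hqN' (hh ▸ hx)) (fun hh => hyN (hh ▸ hx))
    rw [h6]
    linarith
  · obtain ⟨x, hx1, hx2⟩ := hR
    refine ⟨x, hx1.1, ?_⟩
    rintro (h1 | h1)
    · exact hx2 (Or.inl h1)
    · rw [hset] at h1
      simp only [Set.mem_insert_iff, Set.mem_singleton_iff] at h1
      rcases h1 with h1 | h1 | h1 | h1 | h1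
      · exact hx2 (Or.inr (h1 ▸ hpN'))
      · exact hx1.2 (Or.inr h1)
      · exact hx2 (Or.inr (h1 ▸ hb.1))
      · exact hx2 (Or.inr (h1 ▸ hc.1))
      · exact hx1.2 (Or.inl h1)

end

end Pool.Agent.Helper75.GX
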