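import Pool.Agent.Helper97.O3.Defs
import Pool.Agent.Helper82.TK.Enter
import Pool.Agent.Helper57.TOK.SubFold

/-!
# The global fold, part 1: set-up, connectivity, density, index

`FH G U y p q r`: `y` is a cubic vertex with neighbours `p, q, r` and `p, q` are not adjacent. The
fold is `foldG G y p q` on `U \ {y, q}`.
-/

set_option autoImplicit false

namespace Pool.Agent.Helper75.GX

open SimpleGraph Pool.Agent.Helper57.TOK Pool.Agent.Helper57.TD Pool.Agent.Helper82.TK
  Pool.Agent.Helper51.GX Pool.Agent.Helper97.OT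

variable {V : Type*}

/-- The data of a fold of the minimal counterexample. -/
structure FH (G : SimpleGraph V) (U : Set V) (y p q r : V) : Prop where
  base : Base G U
  yU : y ∈ U
  Ny : G.neighborSet y = {p, q, r}
  pq : p ≠ q
  pr : p ≠ r
  qr : q ≠ r
  npq : ¬ G.Adj p q

section

variable {G : SimpleGraph V} {U : Set V} {y p q r : V}

lemma FH.ady (h : FH G U y p q r) {x : V} : G.Adj y x ↔ x = p ∨ x = q ∨ x = r := by
  rw [← SimpleGraph.mem_neighborSet, h.Ny]
  simp only [Set.mem_insert_iff, Set.mem_singleton_iff]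

lemma FH.yp (h : FH G U y p q r) : G.Adj y p := h.ady.2 (Or.inl rfl)
lemma FH.yq (h : FH G U y p q r) : G.Adj y q := h.ady.2 (Or.inr (Or.inl rfl))
lemma FH.yr (h : FH G U y p q r) : G.Adj y r := h.ady.2 (Or.inr (Or.inr rfl))
lemma FH.pU (h : FH G U y p q r) : p ∈ U := h.base.edge_mem p y h.yp.symm
lemma FH.qU (h : FH G U y p q r) : q ∈ U := h.base.edge_mem q y h.yq.symm
lemma FH.rU (h : FH G U y p q r) : r ∈ U := h.base.edge_mem r y h.yr.symm
lemma FH.py (h : FH G U y p q r) : p ≠ y := h.yp.ne.symm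
lemma FH.qy (h : FH G U y p q r) : q ≠ y := h.yq.ne.symm
lemma FH.ry (h : FH G U y p q r) : r ≠ y := h.yr.ne.symm

/-- vertices of a subset of `U \ {y, q}` -/
lemma ne_of_sub {Y : Set V} (hY : Y ⊆ U \ {y, q}) {u : V} (hu : u ∈ Y) : u ≠ y ∧ u ≠ q := by
  have h1 := (hY hu).2
  simp only [Set.mem_insert_iff, Set.mem_singleton_iff] at h1
  push Not at h1
  exact h1

lemma FH.ncardU [Finite V] (h : FH G U y p q r) : (U \ {y, q}).ncard + 2 = U.ncard := by
  have h1 : ({y, q} : Set V) ⊆ U := by
    rintro x (rfl | hx)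
    · exact h.yU
    · rw [Set.mem_singleton_iff] at hx; rw [hx]; exact h.qU
  have h2 := Set.ncard_sdiff_add_ncard_of_subset h1 (Set.toFinite _)
  rw [Set.ncard_pair h.qy.symm] at h2
  exact h2

/-- an edge of the fold -/
lemma FH.edge (h : FH G U y p q r) {u v : V} (huv : (foldG G y p q).Adj u v) :
    u ∈ U \ {y, q} := by
  obtain ⟨h1, h2, h3, h4, h5, h6⟩ := foldG_adj.1 huv
  refine ⟨?_, ?_⟩
  · rcases h6 with h6 | ⟨rfl, -⟩ | ⟨-, h6⟩
    · exact h.base.edge_mem u v h6
    · exact h.pU
    · exact h.base.edge_mem u q h6.symm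
  · rintro (h7 | h7)
    · exact h2 h7
    · exact h4 h7

lemma adj_fold {u v : V} (huv : G.Adj u v) (hu : u ≠ y) (hv : v ≠ y) (hu' : u ≠ q) (hv' : v ≠ q) :
    (foldG G y p q).Adj u v :=
  foldG_adj.2 ⟨huv.ne, hu, hv, hu', hv', Or.inl huv⟩

lemma adj_fold_q {u : V} (huq : G.Adj u q) (hpy : p ≠ y) (hpq : p ≠ q) (hu : u ≠ y)
    (hup : u ≠ p) : (foldG G y p q).Adj u p :=
  foldG_adj.2 ⟨hup, hu, hpy, huq.ne, hpq, Or.inr (Or.inr ⟨rfl, huq.symm⟩)⟩

/-! ### connectivity -/

lemma FH.conn_aux [Finite V] (h : FH G U y p q r) {A B M : Set V} (hA : A ⊆ U \ {y, q})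
    (hB : B ⊆ U \ {y, q}) (hA2 : 2 ≤ A.ncard) (hB2 : 2 ≤ B.ncard) (hM : M.ncard ≤ 2)
    (hAB : Disjoint A B) (hBM : Disjoint B M) (hN : Nb (foldG G y p q) A ⊆ M) (hp : p ∉ A)
    (hc : p ∉ M ∨ r ∉ A) : False := by
  classical
  have hN3 : (Nb G A).ncard ≤ 3 ∧ Nb G A ⊆ M ∪ {y, q} := by
    have key : ∀ x ∈ Nb G A, (x = y ∧ r ∈ A) ∨ (x = q ∧ p ∈ M) ∨ x ∈ M := by
      rintro x ⟨hxA, u, hu, hux⟩
      obtain ⟨huy, huq⟩ := ne_of_sub hA hu
      have hup : u ≠ p := fun hh => hp (hh ▸ hu)
      by_cases hxy : x = y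
      · subst hxy
        left
        rcases h.ady.1 hux.symm with h1 | h1 | h1
        · exact absurd h1 hup
        · exact absurd h1 huq
        · exact ⟨rfl, h1 ▸ hu⟩
      by_cases hxq : x = q
      · subst hxq
        right; left
        exact ⟨rfl, hN ⟨hp, u, hu, adj_fold_q hux h.py h.pq huy hup⟩⟩
      · right; right
        exact hN ⟨hxA, u, hu, adj_fold hux huy hxy huq hxq⟩
    constructor
    · rcases hc with hc | hc
      · have hsub : Nb G A ⊆ insert y M := by
          intro x hx
          rcases key x hx with ⟨h1, -⟩ | ⟨-, h1⟩ | h1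
          · exact Or.inl h1
          · exact absurd h1 hc
          · exact Or.inr h1
        have h1 := Set.ncard_le_ncard hsub (Set.toFinite _)
        have h2 := Set.ncard_insert_le y M
        omega
      · have hsub : Nb G A ⊆ insert q M := by
          intro x hx
          rcases key x hx with ⟨-, h1⟩ | ⟨h1, -⟩ | h1
          · exact absurd h1 hc
          · exact Or.inl h1
          · exact Or.inr h1
        have h1 := Set.ncard_le_ncard hsub (Set.toFinite _)
        have h2 := Set.ncard_insert_le q M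
        omega
    · intro x hx
      rcases key x hx with ⟨h1, -⟩ | ⟨h1, -⟩ | h1
      · exact Or.inr (Or.inl h1)
      · exact Or.inr (Or.inr h1)
      · exact Or.inl h1
  have hI := h.base.I4 A (hA.trans Set.sdiff_subset) hA2 hN3.1
  have hsub : B ⊆ U \ (A ∪ Nb G A) := by
    intro x hx
    refine ⟨(hB hx).1, ?_⟩
    rintro (h1 | h1)
    · exact Set.disjoint_left.1 hAB h1 hx
    · rcases hN3.2 h1 with h2 | h2
      · exact Set.disjoint_left.1 hBM hx h2
      · exact (hB hx).2 h2
  have := Set.ncard_le_ncard hsub (Set.toFinite _)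
  omega

theorem FH.conn [Finite V] (h : FH G U y p q r) :
    ∀ Y ⊆ U \ {y, q}, 2 ≤ Y.ncard → (Nb (foldG G y p q) Y).ncard ≤ 2 →
      ((U \ {y, q}) \ (Y ∪ Nb (foldG G y p q) Y)).ncard ≤ 1 := by
  intro Y hY h2 hN
  by_contra hcon
  push Not at hcon
  set N := Nb (foldG G y p q) Y with hNd
  set Z := (U \ {y, q}) \ (Y ∪ N) with hZ
  have hNZ : Nb (foldG G y p q) Z ⊆ N := by
    rintro x ⟨hxZ, z, hz, hzx⟩
    have hxY : x ∉ Y := by
      intro hxY
      exact hz.2 (Or.inr ⟨fun hh => hz.2 (Or.inl hh), x, hxY, hzx.symm⟩)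
    by_contra hxN
    exact hxZ ⟨h.edge hzx.symm, fun hh => hh.elim hxY hxN⟩
  have hYZ : Disjoint Y Z := by
    rw [Set.disjoint_left]
    intro x hx hxZ
    exact hxZ.2 (Or.inl hx)
  have hYN : Disjoint Y N := by
    rw [Set.disjoint_left]
    intro x hx hxN
    exact hxN.1 hx
  have hZN : Disjoint Z N := by
    rw [Set.disjoint_left]
    intro x hx hxN
    exact hx.2 (Or.inr hxN)
  by_cases hpY : p ∈ Y
  · refine h.conn_aux (A := Z) (B := Y) (M := N) Set.sdiff_subset hY hcon h2 hN hYZ.symm hYN hNZ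
      (fun hh => Set.disjoint_left.1 hYZ hpY hh)
      (Or.inl (fun hh => Set.disjoint_left.1 hYN hpY hh))
  by_cases hc : p ∈ N ∧ r ∈ Y
  · refine h.conn_aux (A := Z) (B := Y) (M := N) Set.sdiff_subset hY hcon h2 hN hYZ.symm hYN hNZ
      (fun hh => Set.disjoint_left.1 hZN hh hc.1)
      (Or.inr (fun hh => Set.disjoint_left.1 hYZ hc.2 hh))
  · refine h.conn_aux (A := Y) (B := Z) (M := N) hY Set.sdiff_subset h2 hcon hN hYZ hZN
      subset_rfl hpY ?_
    by_contra hcc
    push Not at hcc
    exact hc hcc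

/-! ### density -/

lemma FH.rho_univ [Finite V] (h : FH G U y p q r) :
    (foldG G y p q).edgeSet.ncard + ({w | w ≠ y ∧ G.Adj p w ∧ G.Adj q w}).ncard + 3 =
      G.edgeSet.ncard := by
  have h1 := rho_foldG_of_mem (G := G) (y := y) (a := p) (b := q)
    (Y := Set.univ \ ({y, q} : Set V)) h.pq h.py h.qy h.npq
    ⟨trivial, by simp only [Set.mem_insert_iff, Set.mem_singleton_iff]; push Not
                 exact ⟨h.py, h.pq⟩⟩ (by simp) (by simp)
  have h2 : insert y (insert q (Set.univ \ ({y, q} : Set V))) = Set.univ := by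
    ext x
    simp only [Set.mem_insert_iff, Set.mem_sdiff, Set.mem_univ, true_and, Set.mem_singleton_iff,
      iff_true]
    tauto
  have h3 : (G.neighborSet y).ncard = 3 := by
    rw [h.Ny]
    exact Set.ncard_eq_three.2 ⟨p, q, r, h.pq, h.pr, h.qr, rfl⟩
  have h4 : rho (foldG G y p q) (Set.univ \ ({y, q} : Set V)) =
      (foldG G y p q).edgeSet.ncard := by
    rw [← Pool.Agent.Helper57.TOK.rho_univ]
    unfold rho
    congr 1
    ext e
    induction e using Sym2.ind with
    | _ u v =>
      rw [mem_EAt, mem_EAt]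
      constructor
      · rintro ⟨h5, -⟩; exact ⟨h5, Or.inl trivial⟩
      · rintro ⟨h5, -⟩
        exact ⟨h5, Or.inl ⟨trivial, (h.edge h5).2⟩⟩
  rw [h2, h3, h4, Pool.Agent.Helper57.TOK.rho_univ] at h1
  exact h1

theorem FH.dens [Finite V] (h : FH G U y p q r)
    (hC : ({w | w ≠ y ∧ G.Adj p w ∧ G.Adj q w}).ncard ≤ 1) :
    2 * (U \ {y, q}).ncard ≤ (foldG G y p q).edgeSet.ncard + 2 := by
  have h1 := h.rho_univ
  have h2 := h.ncardU
  have h3 := h.base.dens
  omega

/-! ### index two -/

theorem FH.idx (h : FH G U y p q r) (w : V) (κ : V → ZMod 2) :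
    ¬ BalOff (foldG G y p q) (fun _ => 1) {w} κ := by
  classical
  intro hκ
  have hne : ∀ u v, u ≠ w → v ≠ w → (foldG G y p q).Adj u v → κ u ≠ κ v := by
    intro u v hu hv huv
    exact add_eq_one_iff.1 (hκ u v (by simpa using hu) (by simpa using hv) huv).symm
  by_cases hw : w = p
  · subst hw
    refine h.base.ind3 w q (fun v => if v = y then κ r + 1 else κ v) ?_
    intro u v hu hv huv
    simp only [Set.mem_insert_iff, Set.mem_singleton_iff] at hu hv
    push Not at hu hv
    by_cases huy : u = y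
    · subst huy
      rcases h.ady.1 huv with h1 | h1 | h1
      · exact absurd h1 hv.1
      · exact absurd h1 hv.2
      · subst h1
        simp only [if_true, if_neg h.ry]
        exact fun hh => by
          have : κ v + 1 ≠ κ v := by generalize κ v = a; revert a; decide
          exact this hh
    · by_cases hvy : v = y
      · subst hvy
        rcases h.ady.1 huv.symm with h1 | h1 | h1
        · exact absurd h1 hu.1
        · exact absurd h1 hu.2
        · subst h1
          simp only [if_true, if_neg h.ry]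
          exact fun hh => by
            have : κ u + 1 ≠ κ u := by generalize κ u = a; revert a; decide
            exact this hh.symm
      · simp only [if_neg huy, if_neg hvy]
        exact hne u v hu.1 hv.1 (adj_fold huv huy hvy hu.2 hv.2)
  · refine h.base.ind3 w y (fun v => if v = q then κ p else κ v) ?_
    intro u v hu hv huv
    simp only [Set.mem_insert_iff, Set.mem_singleton_iff] at hu hv
    push Not at hu hv
    by_cases huq : u = q
    · subst huq
      have hvu : v ≠ u := huv.ne.symm
      have hvp : v ≠ p := fun hh => h.npq (hh ▸ huv.symm)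
      simp only [if_true, if_neg hvu]
      exact (hne v p hv.1 (Ne.symm hw) (adj_fold_q huv.symm h.py h.pq hv.2 hvp)).symm
    · by_cases hvq : v = q
      · subst hvq
        have hup : u ≠ p := fun hh => h.npq (hh ▸ huv)
        simp only [if_true, if_neg huq]
        exact hne u p hu.1 (Ne.symm hw) (adj_fold_q huv h.py h.pq hu.2 hup)
      · simp only [if_neg huq, if_neg hvq]
        exact hne u v hu.1 hv.1 (adj_fold huv hu.2 hv.2 huq hvq)

/-! ### minimum degree two -/

theorem FH.deg2 [Finite V] (h : FH G U y p q r) :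
    ∀ x ∈ U \ {y, q}, 2 ≤ ((foldG G y p q).neighborSet x).ncard := by
  classical
  intro x hx
  have hxy : x ≠ y := fun hh => hx.2 (Or.inl hh)
  have hxq : x ≠ q := fun hh => hx.2 (Or.inr hh)
  have h3 := h.base.deg3 x hx.1
  have hsub : G.neighborSet x \ {y, q} ⊆ (foldG G y p q).neighborSet x := by
    rintro w ⟨hw, hw'⟩
    simp only [Set.mem_insert_iff, Set.mem_singleton_iff] at hw'
    push Not at hw'
    exact adj_fold hw hxy hw'.1 hxq hw'.2
  have hle : (G.neighborSet x \ {y, q}).ncard ≤ ((foldG G y p q).neighborSet x).ncard :=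
    Set.ncard_le_ncard hsub (Set.toFinite _)
  -- the number of deleted neighbours
  by_cases hq : G.Adj x q
  swap
  · have h4 : G.neighborSet x \ {y} ⊆ G.neighborSet x \ {y, q} := by
      rintro w ⟨hw, hw'⟩
      refine ⟨hw, ?_⟩
      rintro (h5 | h5)
      · exact hw' h5
      · rw [Set.mem_singleton_iff] at h5
        exact hq (h5 ▸ hw)
    have h5 := Set.ncard_le_ncard h4 (Set.toFinite _)
    have h6 := Set.ncard_le_ncard_sdiff_add_ncard (G.neighborSet x) {y} (Set.toFinite _)
    rw [Set.ncard_singleton] at h6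
    omega
  have hxp : x ≠ p := fun hh => h.npq (hh ▸ hq)
  have hadj : (foldG G y p q).Adj x p := adj_fold_q hq h.py h.pq hxy hxp
  by_cases hy : G.Adj x y
  swap
  · have h4 : G.neighborSet x \ {q} ⊆ G.neighborSet x \ {y, q} := by
      rintro w ⟨hw, hw'⟩
      refine ⟨hw, ?_⟩
      rintro (h5 | h5)
      · exact hy (h5 ▸ hw)
      · exact hw' h5
    have h5 := Set.ncard_le_ncard h4 (Set.toFinite _)
    have h6 := Set.ncard_le_ncard_sdiff_add_ncard (G.neighborSet x) {q} (Set.toFinite _)
    rw [Set.ncard_singleton] at h6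
    omega
  -- x = r, adjacent to q
  have hxr : x = r := by
    rcases h.ady.1 hy.symm with h4 | h4 | h4
    · exact absurd h4 hxp
    · exact absurd h4 hxq
    · exact h4
  by_contra hlt
  push Not at hlt
  -- all neighbours of r are p, q, y
  have hN : G.neighborSet x ⊆ {p, q, y} := by
    intro w hw
    by_contra hw'
    simp only [Set.mem_insert_iff, Set.mem_singleton_iff] at hw'
    push Not at hw'
    have h4 : (foldG G y p q).Adj x w := adj_fold hw hxy hw'.2.2 hxq hw'.2.1
    have h5 : ({p, w} : Set V) ⊆ (foldG G y p q).neighborSet x := by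
      rintro v (rfl | hv)
      · exact hadj
      · rw [Set.mem_singleton_iff] at hv; rw [hv]; exact h4
    have h6 := Set.ncard_le_ncard h5 (Set.toFinite _)
    rw [Set.ncard_pair hw'.1.symm] at h6
    omega
  -- the set {y, r}
  have hYU : ({y, x} : Set V) ⊆ U := by
    rintro v (rfl | hv)
    · exact h.yU
    · rw [Set.mem_singleton_iff] at hv; rw [hv]; exact hx.1
  have hNb : Nb G ({y, x} : Set V) ⊆ {p, q} := by
    rintro v ⟨hv, u, hu, huv⟩
    simp only [Set.mem_insert_iff, Set.mem_singleton_iff] at hv hu ⊢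
    push Not at hv
    rcases hu with rfl | rfl
    · rcases h.ady.1 huv with h4 | h4 | h4
      · exact Or.inl h4
      · exact Or.inr h4
      · exact absurd (h4.trans hxr.symm) hv.2
    · have := hN huv
      simp only [Set.mem_insert_iff, Set.mem_singleton_iff] at this
      rcases this with h4 | h4 | h4
      · exact Or.inl h4
      · exact Or.inr h4
      · exact absurd h4 hv.1
  have hNb2 := Set.ncard_le_ncard hNb (Set.toFinite _)
  rw [Set.ncard_pair h.pq] at hNb2
  have hI := h.base.I4 {y, x} hYU (by rw [Set.ncard_pair hxy.symm]) (by omega)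
  -- G minus p, q is balanced
  refine h.base.ind3 p q (fun v => if v = y then 1 else 0) ?_
  intro u v hu hv huv
  simp only [Set.mem_insert_iff, Set.mem_singleton_iff] at hu hv
  push Not at hu hv
  have key : ∀ a b : V, a ≠ p → a ≠ q → b ≠ p → b ≠ q → G.Adj a b → a = y ∨ a = x := by
    intro a b ha ha' hb hb' hab
    by_contra hcon
    push Not at hcon
    have hbn : b ≠ y ∧ b ≠ x := by
      constructor
      · intro hh
        rw [hh] at hab
        rcases h.ady.1 hab.symm with h4 | h4 | h4
        · exact ha h4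
        · exact ha' h4
        · exact hcon.2 (h4.trans hxr.symm)
      · intro hh
        rw [hh] at hab
        have := hN hab.symm
        simp only [Set.mem_insert_iff, Set.mem_singleton_iff] at this
        rcases this with h4 | h4 | h4
        · exact ha h4
        · exact ha' h4
        · exact hcon.1 h4
    have m : ∀ z, z ∈ U → z ≠ p → z ≠ q → z ≠ y → z ≠ x →
        z ∈ U \ (({y, x} : Set V) ∪ Nb G ({y, x} : Set V)) := by
      intro z hz h4 h5 h6 h7
      refine ⟨hz, ?_⟩
      rintro ((h8 | h8) | h8)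
      · exact h6 h8
      · exact h7 h8
      · rcases hNb h8 with h9 | h9
        · exact h4 h9
        · exact h5 h9
    have e := (Set.ncard_le_one (Set.toFinite _)).1 hI a
      (m a (h.base.edge_mem a b hab) ha ha' hcon.1 hcon.2) b
      (m b (h.base.edge_mem b a hab.symm) hb hb' hbn.1 hbn.2)
    exact hab.ne e
  have h4 := key u v hu.1 hu.2 hv.1 hv.2 huv
  have h5 := key v u hv.1 hv.2 hu.1 hu.2 huv.symm
  have n10 : (1 : ZMod 2) ≠ 0 := by decide
  rcases h4 with rfl | rfl
  · rcases h5 with h5 | rfl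
    · exact absurd h5 huv.ne.symm
    · simp only [if_true, if_neg hxy]
      exact n10
  · rcases h5 with rfl | h5
    · simp only [if_true, if_neg hxy]
      exact n10.symm
    · exact absurd h5 huv.ne.symm

end

end Pool.Agent.Helper75.GX
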